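import Mathlib

namespace Pool.Agent.FibCube

/-- Lucas numbers -/
def luc : ℕ → ℤ
  | 0 => 2
  | 1 => 1
  | n + 2 => luc (n + 1) + luc n

lemma luc_add_two (n : ℕ) : luc (n + 2) = luc (n + 1) + luc n := rfl

lemma luc_fib (n : ℕ) : luc (n + 1) = Nat.fib n + Nat.fib (n + 2) := by
  induction n using Nat.strong_induction_on with
  | _ n ih =>
    match n with
    | 0 => rfl
    | 1 => rfl
    | k + 2 =>
      rw [luc_add_two, ih (k + 1) (by omega), ih k (by omega), Nat.fib_add_two (n := k + 2),
        Nat.fib_add_two (n := k), Nat.fib_add_two (n := k + 1)]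
      push_cast
      rw [Nat.fib_add_two (n := k)]
      push_cast
      ring

lemma luc_pos (n : ℕ) : 0 < luc n := by
  induction n using Nat.strong_induction_on with
  | _ n ih =>
    match n with
    | 0 => decide
    | 1 => decide
    | k + 2 =>
      rw [luc_add_two]
      have := ih (k + 1) (by omega)
      have := ih k (by omega)
      omega

lemma luc_mod4 (q : ℕ) : luc (6 * q) % 4 = 2 ∧ luc (6 * q + 1) % 4 = 1 := by
  induction q with
  | zero => decide
  | succ q ih =>
    have e : 6 * (q + 1) = 6 * q + 6 := by ring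
    rw [e]
    have h2 := luc_add_two (6 * q)
    have h3 := luc_add_two (6 * q + 1)
    have h4 := luc_add_two (6 * q + 2)
    have h5 := luc_add_two (6 * q + 3)
    have h6 := luc_add_two (6 * q + 4)
    have h7 := luc_add_two (6 * q + 5)
    simp only [add_assoc, Nat.reduceAdd] at h2 h3 h4 h5 h6 h7 ⊢
    omega

lemma luc_mod4' {k : ℕ} (hk : k % 6 = 2 ∨ k % 6 = 4) : luc k % 4 = 3 := by
  obtain ⟨q, hq⟩ : ∃ q, q = k / 6 := ⟨_, rfl⟩
  obtain ⟨h0, h1⟩ := luc_mod4 q
  have h2 := luc_add_two (6 * q)
  have h3 := luc_add_two (6 * q + 1)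
  have h4 := luc_add_two (6 * q + 2)
  simp only [add_assoc, Nat.reduceAdd] at h2 h3 h4
  rcases hk with hk | hk
  · have : k = 6 * q + 2 := by omega
    rw [this]
    omega
  · have : k = 6 * q + 4 := by omega
    rw [this]
    omega

/-- `L_{2k} = L_k² - 2 (-1)^k` and `L_{2k+1} = L_{k+1} L_k - (-1)^k` -/
lemma luc_double (k : ℕ) : luc (2 * k) = luc k ^ 2 - 2 * (-1) ^ k ∧
    luc (2 * k + 1) = luc (k + 1) * luc k - (-1) ^ k ∧
    luc (k + 1) ^ 2 - luc (k + 1) * luc k - luc k ^ 2 = -5 * (-1) ^ k := by
  induction k with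
  | zero => decide
  | succ k ih =>
    obtain ⟨h1, h2, h3⟩ := ih
    have e2 := luc_add_two (2 * k)
    have e3 := luc_add_two (2 * k + 1)
    have e4 := luc_add_two k
    simp only [add_assoc, Nat.reduceAdd] at e2 e3 e4
    have s1 : 2 * (k + 1) = 2 * k + 2 := by ring
    have s2 : 2 * (k + 1) + 1 = 2 * k + 3 := by ring
    have s3 : k + 1 + 1 = k + 2 := by ring
    rw [s2, s1, s3, e3, e2, e4, h1, h2, pow_succ]
    refine ⟨?_, ?_, ?_⟩ <;> linear_combination (norm := ring_nf) -h3

lemma luc_shift (k m : ℕ) : luc (m + 2 * k) + (-1) ^ k * luc m = luc (m + k) * luc k := by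
  induction m using Nat.strong_induction_on with
  | _ m ih =>
    match m with
    | 0 =>
      have := (luc_double k).1
      simp only [zero_add]
      rw [this]
      show luc k ^ 2 - 2 * (-1) ^ k + (-1) ^ k * 2 = _
      ring
    | 1 =>
      have := (luc_double k).2.1
      rw [add_comm 1 (2 * k), this, add_comm 1 k]
      show luc (k + 1) * luc k - (-1) ^ k + (-1) ^ k * 1 = _
      ring
    | n + 2 =>
      have h0 := ih n (by omega)
      have h1 := ih (n + 1) (by omega)
      have e1 : luc (n + 2 + 2 * k) = luc (n + 1 + 2 * k) + luc (n + 2 * k) := by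
        have := luc_add_two (n + 2 * k)
        rw [show n + 2 + 2 * k = n + 2 * k + 2 by ring, this,
          show n + 2 * k + 1 = n + 1 + 2 * k by ring]
      have e2 : luc (n + 2 + k) = luc (n + 1 + k) + luc (n + k) := by
        have := luc_add_two (n + k)
        rw [show n + 2 + k = n + k + 2 by ring, this, show n + k + 1 = n + 1 + k by ring]
      rw [e1, e2, luc_add_two n]
      linear_combination h0 + h1

/-- for even `k`: `L_{r + 2kj} ≡ (-1)^j L_r` modulo `L_k` -/
lemma luc_iter {k : ℕ} (hk : Even k) (r j : ℕ) :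
    luc k ∣ luc (r + 2 * k * j) - (-1) ^ j * luc r := by
  induction j with
  | zero => simp
  | succ j ih =>
    have h := luc_shift k (r + 2 * k * j)
    rw [hk.neg_one_pow, one_mul] at h
    have e : r + 2 * k * (j + 1) = r + 2 * k * j + 2 * k := by ring
    rw [e, pow_succ]
    have : luc (r + 2 * k * j + 2 * k) - (-1) ^ j * -1 * luc r =
        luc (r + 2 * k * j + k) * luc k - (luc (r + 2 * k * j) - (-1) ^ j * luc r) := by
      linear_combination h
    rw [this]
    exact dvd_sub (dvd_mul_left _ _) ih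

end Pool.Agent.FibCube
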