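import Mathlib
import Pool.Agent.FibCube.Lucas

namespace Pool.Agent.FibCube

lemma mod4_one (m : ℕ) (hm : m ≠ 0) (h : ∀ p : ℕ, p.Prime → p ∣ m → p % 4 = 1) : m % 4 = 1 := by
  induction m using Nat.recOnMul with
  | zero => exact absurd rfl hm
  | one => rfl
  | prime p hp => exact h p hp dvd_rfl
  | mul a b ha hb =>
    have ha0 : a ≠ 0 := fun h0 => hm (by rw [h0, zero_mul])
    have hb0 : b ≠ 0 := fun h0 => hm (by rw [h0, mul_zero])
    have h1 := ha ha0 fun p hp hd => h p hp (hd.mul_right b)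
    have h2 := hb hb0 fun p hp hd => h p hp (hd.mul_left a)
    rw [Nat.mul_mod, h1, h2]

/-- a number `≡ 3 mod 4` does not divide `a² + c²` for `c = 1, 2` -/
lemma no_dvd {N : ℤ} (hpos : 0 < N) (hN : N % 4 = 3) {c : ℤ} (hc : c = 1 ∨ c = 2) {a : ℤ}
    (h : N ∣ a ^ 2 + c ^ 2) : False := by
  obtain ⟨n, hn⟩ : ∃ n : ℕ, (n : ℤ) = N := ⟨N.toNat, Int.toNat_of_nonneg hpos.le⟩
  have hn4 : n % 4 = 3 := by omega
  have h1 := mod4_one n (by omega) fun p hp hd => by
    have := Fact.mk hp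
    have hp2 : p ≠ 2 := by
      rintro rfl
      omega
    have hdz : (p : ℤ) ∣ a ^ 2 + c ^ 2 := (Int.natCast_dvd_natCast.mpr hd).trans (hn ▸ h)
    have h0 : ((a ^ 2 + c ^ 2 : ℤ) : ZMod p) = 0 := by
      rwa [ZMod.intCast_zmod_eq_zero_iff_dvd]
    push_cast at h0
    have hc0 : (c : ZMod p) ≠ 0 := by
      intro h2
      rw [ZMod.intCast_zmod_eq_zero_iff_dvd] at h2
      have hp2' := hp.two_le
      rcases hc with rfl | rfl
      · have := Int.le_of_dvd (by norm_num) h2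
        omega
      · have := Int.le_of_dvd (by norm_num) h2
        omega
    have hsq : IsSquare (-1 : ZMod p) := by
      refine ⟨(a : ZMod p) / c, ?_⟩
      field_simp
      linear_combination -h0
    have := ZMod.exists_sq_eq_neg_one_iff.mp hsq
    have hodd := hp.eq_two_or_odd
    omega
  omega

/-- Cohn: the only odd-index Lucas numbers which are squares are `L₁` and `L₃` -/
theorem cohn {m : ℕ} (hodd : m % 2 = 1) {a : ℤ} (h : luc m = a ^ 2) : m = 1 ∨ m = 3 := by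
  by_contra hcon
  push Not at hcon
  -- m = r + 2 k j with r = 1 or 3
  obtain ⟨r, c, hr, hc, hcr, hd, hlt⟩ : ∃ (r : ℕ) (c : ℤ), (r = 1 ∨ r = 3) ∧ (c = 1 ∨ c = 2) ∧
      luc r = c ^ 2 ∧ 4 ∣ m - r ∧ r < m := by
    rcases (by omega : m % 4 = 1 ∨ m % 4 = 3) with h4 | h4
    · exact ⟨1, 1, Or.inl rfl, Or.inl rfl, by decide, by omega, by omega⟩
    · exact ⟨3, 2, Or.inr rfl, Or.inr rfl, by decide, by omega, by omega⟩
  obtain ⟨u, hu⟩ := hd
  have hu0 : u ≠ 0 := by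
    rintro rfl
    omega
  obtain ⟨e, v, hv, huv⟩ := Nat.exists_eq_pow_mul_and_not_dvd hu0 3 (by norm_num)
  -- k = 2 v, j = 3 ^ e
  have hm : m = r + 2 * (2 * v) * 3 ^ e := by
    have : m = r + 4 * u := by omega
    rw [this, huv]
    ring
  have hk6 : (2 * v) % 6 = 2 ∨ (2 * v) % 6 = 4 := by omega
  have hL := luc_mod4' hk6
  have hit := luc_iter (k := 2 * v) ⟨v, by ring⟩ r (3 ^ e)
  have hoddj : Odd (3 ^ e) := (by decide : Odd 3).pow
  rw [← hm, hoddj.neg_one_pow, h, hcr] at hit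
  have hit' : luc (2 * v) ∣ a ^ 2 + c ^ 2 := by
    have e1 : a ^ 2 - -1 * c ^ 2 = a ^ 2 + c ^ 2 := by ring
    rwa [e1] at hit
  exact no_dvd (luc_pos _) hL hc hit'

lemma luc_mod3 (q : ℕ) : luc (8 * q) % 3 = 2 ∧ luc (8 * q + 1) % 3 = 1 := by
  induction q with
  | zero => decide
  | succ q ih =>
    have e : 8 * (q + 1) = 8 * q + 8 := by ring
    rw [e]
    have h2 := luc_add_two (8 * q)
    have h3 := luc_add_two (8 * q + 1)
    have h4 := luc_add_two (8 * q + 2)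
    have h5 := luc_add_two (8 * q + 3)
    have h6 := luc_add_two (8 * q + 4)
    have h7 := luc_add_two (8 * q + 5)
    have h8 := luc_add_two (8 * q + 6)
    have h9 := luc_add_two (8 * q + 7)
    simp only [add_assoc, Nat.reduceAdd] at h2 h3 h4 h5 h6 h7 h8 h9 ⊢
    omega

lemma luc_odd_mod3 {m : ℕ} (hodd : m % 2 = 1) : luc m % 3 ≠ 0 := by
  obtain ⟨q, hq⟩ : ∃ q, q = m / 8 := ⟨_, rfl⟩
  obtain ⟨h0, h1⟩ := luc_mod3 q
  have h2 := luc_add_two (8 * q)
  have h3 := luc_add_two (8 * q + 1)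
  have h4 := luc_add_two (8 * q + 2)
  have h5 := luc_add_two (8 * q + 3)
  have h6 := luc_add_two (8 * q + 4)
  have h7 := luc_add_two (8 * q + 5)
  simp only [add_assoc, Nat.reduceAdd] at h2 h3 h4 h5 h6 h7
  rcases (by omega : m = 8 * q + 1 ∨ m = 8 * q + 3 ∨ m = 8 * q + 5 ∨ m = 8 * q + 7) with h | h | h | h
  · rw [h]; omega
  · rw [h]; omega
  · rw [h]; omega
  · rw [h]; omega

end Pool.Agent.FibCube
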