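import Mathlib
import Pool.Agent.FibCube.Cohn

namespace Pool.Agent.FibCube

lemma cassini (k : ℕ) : (Nat.fib (2 * k + 1) : ℤ) ^ 2 = Nat.fib (2 * k) * Nat.fib (2 * k + 2) + 1 := by
  induction k with
  | zero => decide
  | succ k ih =>
    have e2 := Nat.fib_add_two (n := 2 * k)
    have e3 := Nat.fib_add_two (n := 2 * k + 1)
    have e4 := Nat.fib_add_two (n := 2 * k + 2)
    have s1 : 2 * (k + 1) = 2 * k + 2 := by ring
    have s2 : 2 * k + 2 + 1 = 2 * k + 1 + 2 := by ring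
    rw [s1, e4, s2, e3]
    have s3 : 2 * k + 1 + 1 = 2 * k + 2 := by ring
    rw [s3, e2]
    rw [e2] at ih
    push_cast at ih ⊢
    linear_combination ih

lemma fib41 (k : ℕ) : (Nat.fib (4 * k + 1) : ℤ) = Nat.fib (2 * k) * luc (2 * k + 1) + 1 := by
  have h := cassini k
  have h2 := Nat.fib_two_mul_add_one (2 * k)
  rw [show 2 * (2 * k) + 1 = 4 * k + 1 by ring] at h2
  rw [h2, luc_fib]
  push_cast
  linear_combination h

lemma fib43 (k : ℕ) : (Nat.fib (4 * k + 3) : ℤ) = Nat.fib (2 * k + 2) * luc (2 * k + 1) + 1 := by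
  have h := cassini k
  have h2 := Nat.fib_two_mul_add_one (2 * k + 1)
  rw [show 2 * (2 * k + 1) + 1 = 4 * k + 3 by ring] at h2
  rw [h2, luc_fib]
  push_cast
  linear_combination h

lemma cop (k : ℕ) : IsCoprime (Nat.fib (2 * k) : ℤ) (Nat.fib (2 * k + 2) : ℤ) := by
  rw [Nat.isCoprime_iff_coprime]
  unfold Nat.Coprime
  rw [← Nat.fib_gcd]
  have : Nat.gcd (2 * k) (2 * k + 2) = 2 := by
    rw [Nat.gcd_self_add_right]
    exact Nat.gcd_eq_right (dvd_mul_right 2 k)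
  rw [this]
  rfl

lemma cop1 (k : ℕ) : IsCoprime (Nat.fib (2 * k) : ℤ) (luc (2 * k + 1)) := by
  rw [luc_fib]
  have h := IsCoprime.add_mul_left_right (cop k) 1
  have e : (Nat.fib (2 * k) : ℤ) + Nat.fib (2 * k + 2) = Nat.fib (2 * k + 2) + Nat.fib (2 * k) * 1 := by
    ring
  rw [e]
  exact h

lemma cop2 (k : ℕ) : IsCoprime (Nat.fib (2 * k + 2) : ℤ) (luc (2 * k + 1)) := by
  rw [luc_fib]
  have h := IsCoprime.add_mul_left_right (cop k).symm 1
  have e : (Nat.fib (2 * k) : ℤ) + Nat.fib (2 * k + 2) = Nat.fib (2 * k) + Nat.fib (2 * k + 2) * 1 := by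
    ring
  rw [e]
  exact h

lemma luc_square {G : ℤ} {k : ℕ} (hc : IsCoprime G (luc (2 * k + 1))) {e : ℤ}
    (h : G * luc (2 * k + 1) = 3 * e ^ 2) : k = 0 ∨ k = 1 := by
  have h3 : luc (2 * k + 1) % 3 ≠ 0 := luc_odd_mod3 (by omega)
  have hp3 : Prime (3 : ℤ) := Int.prime_three
  have hG : (3 : ℤ) ∣ G := by
    rcases hp3.dvd_or_dvd (⟨e ^ 2, h⟩ : (3 : ℤ) ∣ G * luc (2 * k + 1)) with h1 | h1
    · exact h1
    · exact absurd (Int.emod_eq_zero_of_dvd h1) h3
  obtain ⟨g, rfl⟩ := hG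
  have h1 : luc (2 * k + 1) * g = e ^ 2 := by
    have : 3 * (luc (2 * k + 1) * g) = 3 * e ^ 2 := by linear_combination h
    linarith
  have hc' : IsCoprime (luc (2 * k + 1)) g := (hc.of_mul_left_right).symm
  obtain ⟨a, ha⟩ := Int.sq_of_gcd_eq_one (Int.isCoprime_iff_gcd_eq_one.mp hc') h1
  have hpos := luc_pos (2 * k + 1)
  rcases ha with ha | ha
  · rcases cohn (by omega) ha with h2 | h2 <;> omega
  · nlinarith [sq_nonneg a]

/-- odd `n` with `F_n = 3 e² + 1` -/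
theorem odd_case {n : ℕ} (hn : n % 2 = 1) {e : ℤ} (h : (Nat.fib n : ℤ) = 3 * e ^ 2 + 1) :
    n = 1 ∨ n = 7 := by
  have small : n = 1 ∨ n = 3 ∨ n = 5 ∨ n = 7 := by
    rcases (by omega : n % 4 = 1 ∨ n % 4 = 3) with h4 | h4
    · obtain ⟨k, rfl⟩ : ∃ k, n = 4 * k + 1 := ⟨n / 4, by omega⟩
      have h1 := fib41 k
      have := luc_square (cop1 k) (e := e) (by linear_combination h - h1)
      omega
    · obtain ⟨k, rfl⟩ : ∃ k, n = 4 * k + 3 := ⟨n / 4, by omega⟩
      have h1 := fib43 k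
      have := luc_square (cop2 k) (e := e) (by linear_combination h - h1)
      omega
  rcases small with rfl | rfl | rfl | rfl
  · exact Or.inl rfl
  · exfalso
    have : (Nat.fib 3 : ℤ) = 2 := rfl
    omega
  · exfalso
    have h5 : (Nat.fib 5 : ℤ) = 5 := rfl
    omega
  · exact Or.inr rfl

/-- a prime `p` with `2 p = x³ + y³` is of the form `3 e² + 1` -/
theorem prime_case {p : ℕ} (hp : p.Prime) {x y : ℤ} (h : 2 * (p : ℤ) = x ^ 3 + y ^ 3) :
    ∃ e : ℤ, (p : ℤ) = 3 * e ^ 2 + 1 := by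
  obtain ⟨s, hs⟩ : ∃ s, s = x + y := ⟨_, rfl⟩
  obtain ⟨d, hd⟩ : ∃ d, d = x - y := ⟨_, rfl⟩
  have hp0 : (0 : ℤ) < p := by exact_mod_cast hp.pos
  have h1 : 8 * (p : ℤ) = s * (s ^ 2 + 3 * d ^ 2) := by
    rw [hs, hd]
    linear_combination 4 * h
  have hfac : 2 * (p : ℤ) = s * (x ^ 2 - x * y + y ^ 2) := by
    rw [hs]
    linear_combination h
  have hspos : 0 < s := by
    by_contra hcon
    push Not at hcon
    have : s * (s ^ 2 + 3 * d ^ 2) ≤ 0 :=
      mul_nonpos_of_nonpos_of_nonneg hcon (by positivity)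
    linarith
  have hs3 : s ^ 3 ≤ 8 * p := by
    rw [h1]
    nlinarith [mul_nonneg hspos.le (sq_nonneg d)]
  have hs12 : s = 1 ∨ s = 2 := by
    have hdvd : s ∣ 2 * (p : ℤ) := ⟨_, hfac⟩
    have hpp : Prime (p : ℤ) := Nat.prime_iff_prime_int.mp hp
    by_cases hps : (p : ℤ) ∣ s
    · have hle : (p : ℤ) ≤ s := Int.le_of_dvd hspos hps
      have hp2 : (2 : ℤ) ≤ p := by exact_mod_cast hp.two_le
      have hs2 : s ≤ 2 := by
        by_contra hcon
        push Not at hcon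
        have : 8 * s < s ^ 3 := by nlinarith [mul_pos hspos hspos]
        nlinarith
      omega
    · have hcop : IsCoprime s (p : ℤ) := by
        rw [isCoprime_comm]
        exact (Prime.coprime_iff_not_dvd hpp).mpr hps
      have h2 : s ∣ 2 := hcop.dvd_of_dvd_mul_right hdvd
      have := Int.le_of_dvd (by norm_num) h2
      omega
  rcases hs12 with h2 | h2
  · exfalso
    rw [h2] at h1
    have h3 : d % 8 = 0 ∨ d % 8 = 1 ∨ d % 8 = 2 ∨ d % 8 = 3 ∨ d % 8 = 4 ∨ d % 8 = 5 ∨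
      d % 8 = 6 ∨ d % 8 = 7 := by omega
    have h4 : (1 + 3 * d ^ 2) % 8 = 0 := by
      have : 1 + 3 * d ^ 2 = 8 * p := by linear_combination -h1
      omega
    rcases h3 with h3 | h3 | h3 | h3 | h3 | h3 | h3 | h3 <;>
      simp [Int.add_emod, Int.mul_emod, pow_two, h3] at h4
  · rw [h2] at h1
    have h4 : 4 * (p : ℤ) = 4 + 3 * d ^ 2 := by linarith
    have hdeven : Even d := by
      have : Even (3 * d ^ 2) := ⟨2 * p - 2, by linarith⟩
      rw [Int.even_mul, Int.even_pow] at this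
      rcases this with h5 | h5
      · exact absurd h5 (by decide)
      · exact h5.1
    obtain ⟨e, he⟩ := hdeven
    refine ⟨e, ?_⟩
    rw [he] at h4
    linarith [h4, (by ring : (e + e) ^ 2 = 4 * e ^ 2)]

theorem prime_index {n : ℕ} (hn : (Nat.fib n).Prime) :
    (∃ x y : ℤ, 2 * (Nat.fib n : ℤ) = x ^ 3 + y ^ 3) ↔ n = 7 := by
  constructor
  · rintro ⟨x, y, h⟩
    obtain ⟨e, he⟩ := prime_case hn h
    rcases Nat.even_or_odd n with hev | hodd
    · exfalso
      obtain ⟨j, rfl⟩ := hev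
      have hdvd : Nat.fib j ∣ Nat.fib (j + j) := Nat.fib_dvd _ _ ⟨2, by ring⟩
      have hj3 : ¬ 3 ≤ j := by
        intro hj
        rcases (Nat.dvd_prime hn).mp hdvd with h1 | h1
        · have : Nat.fib 3 ≤ Nat.fib j := Nat.fib_mono hj
          have h3 : Nat.fib 3 = 2 := rfl
          omega
        · have : Nat.fib j < Nat.fib (j + j) := (Nat.fib_lt_fib (by omega)).mpr (by omega)
          omega
      have : j = 0 ∨ j = 1 ∨ j = 2 := by omega
      rcases this with rfl | rfl | rfl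
      · exact absurd hn (by decide)
      · exact absurd hn (by decide)
      · have : (Nat.fib (2 + 2) : ℤ) = 3 := rfl
        omega
    · rcases odd_case (Nat.odd_iff.mp hodd) he with h1 | h1
      · exfalso
        rw [h1] at hn
        exact absurd hn (by decide)
      · exact h1
  · rintro rfl
    exact ⟨3, -1, by decide⟩

/-- residues of sums of two cubes modulo 63 -/
def S63 : List (ZMod 63) := [0, 1, 2, 7, 8, 9, 16, 19, 20, 26, 27, 28, 29, 34, 35, 36, 37, 43, 44, 47, 54, 55, 56, 61, 62]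

lemma cubes63 : ∀ x y : ZMod 63, x ^ 3 + y ^ 3 ∈ S63 := by decide +kernel

lemma fib_period (q r : ℕ) : ((Nat.fib (48 * q + r) : ℕ) : ZMod 63) = (Nat.fib r : ℕ) := by
  induction q generalizing r with
  | zero => simp
  | succ q ih =>
    have e : 48 * (q + 1) + r = 48 * q + (48 + r) := by ring
    rw [e, ih]
    have h := Nat.fib_add 47 r
    rw [show 47 + r + 1 = 48 + r by ring] at h
    rw [h]
    push_cast
    have h47 : ((Nat.fib 47 : ℕ) : ZMod 63) = 1 := by decide +kernel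
    have h48 : ((Nat.fib (47 + 1) : ℕ) : ZMod 63) = 0 := by decide +kernel
    rw [h47, h48]
    ring

lemma residues48 : ∀ r : Fin 48, (2 * ((Nat.fib r.val : ℕ) : ZMod 63)) ∈ S63 →
    r.val ∈ ([0, 1, 2, 6, 7, 10, 12, 14, 17, 18, 22, 23, 24, 25, 26, 30, 31, 34, 36, 38, 41, 42, 46, 47] : List ℕ) := by decide +kernel

theorem residue {n : ℕ} (h : ∃ x y : ℤ, 2 * (Nat.fib n : ℤ) = x ^ 3 + y ^ 3) :
    n % 48 ∈ ([0, 1, 2, 6, 7, 10, 12, 14, 17, 18, 22, 23, 24, 25, 26, 30, 31, 34, 36, 38, 41, 42, 46, 47] : List ℕ) := by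
  obtain ⟨x, y, h⟩ := h
  have h1 := congrArg (Int.cast : ℤ → ZMod 63) h
  push_cast at h1
  have h2 := fib_period (n / 48) (n % 48)
  rw [Nat.div_add_mod] at h2
  have h3 := cubes63 (x : ZMod 63) (y : ZMod 63)
  rw [← h1, h2] at h3
  exact residues48 ⟨n % 48, Nat.mod_lt _ (by norm_num)⟩ h3

end Pool.Agent.FibCube
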